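import Pool.Agent.H952R2.TQ.Stubs

/-! Task BL: the block lemma (helper70). -/

set_option autoImplicit false
open Filter Topology
open scoped InnerProductSpace

namespace Pool.Agent.H952R2.TQ.P

/-- a nilpotent operator has a unit vector in its kernel -/
theorem BL_unit {K : Type} [NormedAddCommGroup K] [InnerProductSpace ℂ K] [CompleteSpace K]
    (s : K →L[ℂ] K) (n : ℕ) (hs : s ^ n = 0) (hK : ∃ v : K, v ≠ 0) : ∃ ζ : K, ‖ζ‖ = 1 ∧ s ζ = 0 := by
  classical
  obtain ⟨v, hv⟩ := hK
  have hex : ∃ j : ℕ, (s ^ j) v = 0 := ⟨n, by rw [hs]; rfl⟩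
  have h0 : Nat.find hex ≠ 0 := by
    intro h
    have := Nat.find_spec hex
    rw [h, pow_zero] at this
    exact hv this
  obtain ⟨j, hj⟩ := Nat.exists_eq_succ_of_ne_zero h0
  have h1 : (s ^ (j + 1)) v = 0 := by
    have := Nat.find_spec hex
    rwa [hj] at this
  have h2 : (s ^ j) v ≠ 0 := Nat.find_min hex (by omega)
  have h3 : s ((s ^ j) v) = 0 := by
    rw [pow_succ'] at h1
    exact h1
  refine ⟨((‖(s ^ j) v‖⁻¹ : ℝ) : ℂ) • (s ^ j) v, ?_, ?_⟩
  · rw [norm_smul, Complex.norm_real, norm_inv, norm_norm, inv_mul_cancel₀]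
    exact norm_ne_zero_iff.2 h2
  · rw [map_smul, h3, smul_zero]

/-- a vector in the first copies lies in the range of the first block -/
theorem BL_first {K H K' : Type} [NormedAddCommGroup K] [InnerProductSpace ℂ K] [CompleteSpace K]
    [NormedAddCommGroup H] [InnerProductSpace ℂ H] [CompleteSpace H]
    [NormedAddCommGroup K'] [InnerProductSpace ℂ K'] [CompleteSpace K']
    (V : ℕ → (K →L[ℂ] H)) (hV : Frame V) (V' : ℕ → (K' →L[ℂ] H)) (hV' : Frame V') (c m : ℕ)
    (I : Fin (c + m) → (K →L[ℂ] K')) (h : ∀ s : Fin (c + m), V' 0 ∘L I s = V s) (x : H)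
    (hx : Fst V c x) : V' 0 (ContinuousLinearMap.adjoint (V' 0) x) = x ∧
      ∀ s : Fin (c + m), c ≤ s →
        ContinuousLinearMap.adjoint (I s) (ContinuousLinearMap.adjoint (V' 0) x) = 0 := by
  constructor
  · have h1 : HasSum (fun i => V i (ContinuousLinearMap.adjoint (V i) x))
        (∑ i ∈ Finset.range c, V i (ContinuousLinearMap.adjoint (V i) x)) := by
      apply hasSum_sum_of_ne_finset_zero
      intro i hi
      rw [hx i (by simpa using hi), map_zero]
    have h2 : x = ∑ i ∈ Finset.range c, V i (ContinuousLinearMap.adjoint (V i) x) :=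
      (hV.sum x).unique h1
    have h3 : ∀ i ∈ Finset.range c, ∀ k : K,
        V' 0 (ContinuousLinearMap.adjoint (V' 0) (V i k)) = V i k := by
      intro i hi k
      have hi' : i < c + m := by
        have := Finset.mem_range.1 hi
        omega
      have e : V i k = V' 0 (I ⟨i, hi'⟩ k) := by
        have := h ⟨i, hi'⟩
        rw [← ContinuousLinearMap.comp_apply, this]
      have e2 : ∀ u : K', ContinuousLinearMap.adjoint (V' 0) (V' 0 u) = u := by
        intro u
        have := hV'.iso 0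
        rw [← ContinuousLinearMap.comp_apply, this]
        rfl
      rw [e, e2]
    conv_lhs => rw [h2]
    rw [map_sum, map_sum]
    conv_rhs => rw [h2]
    exact Finset.sum_congr rfl fun i hi => h3 i hi _
  · intro s hs
    have h1 : ContinuousLinearMap.adjoint (I s) ∘L ContinuousLinearMap.adjoint (V' 0) =
        ContinuousLinearMap.adjoint (V s) := by
      rw [← ContinuousLinearMap.adjoint_comp, h s]
    rw [← ContinuousLinearMap.comp_apply, h1]
    exact hx s hs

theorem BL (f1 : S_F1) (f2 : S_F2) (f3 : S_F3) (ch : S_CH) : S_BL := by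
  intro K H _ _ _ _ _ _ V t T n c x y ε hV htn hT hx hy horth hK hε
  set m : ℕ := max n 1 with hm
  obtain ⟨ζ, hζ1, hζ0⟩ := BL_unit (ContinuousLinearMap.adjoint t) n (by
    have h1 := congrArg star htn
    rw [star_pow, star_zero] at h1
    exact h1) hK
  obtain ⟨K', i1, i2, i3, I, V', hV', hI1, hI2, hI3, hVI⟩ := f3 K H V (c + m) hV (by omega)
  -- the amplification of `t`
  set τ : K' →L[ℂ] K' := ∑ s, I s ∘L t ∘L ContinuousLinearMap.adjoint (I s) with hτ
  have hadjI : ∀ (s r : Fin (c + m)) (k : K),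
      ContinuousLinearMap.adjoint (I s) (I r k) = if s = r then k else 0 := by
    intro s r k
    split_ifs with h
    · subst h
      rw [← ContinuousLinearMap.comp_apply, hI1 s]; rfl
    · rw [← ContinuousLinearMap.comp_apply, hI2 s r h]; rfl
  have hτI : ∀ s, τ ∘L I s = I s ∘L t := by
    intro s
    ext k
    rw [hτ]
    simp only [ContinuousLinearMap.comp_apply, ContinuousLinearMap.sum_apply]
    rw [Finset.sum_eq_single s]
    · rw [hadjI, if_pos rfl]
    · intro r _ hr
      rw [hadjI, if_neg hr, map_zero, map_zero]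
    · intro h; exact absurd (Finset.mem_univ s) h
  have hTV' : ∀ a, T ∘L V' a = V' a ∘L τ := by
    intro a
    ext u
    simp only [ContinuousLinearMap.comp_apply]
    have h1 : ∀ (s : Fin (c + m)) (k : K), T (V' a (I s k)) = V' a (τ (I s k)) := by
      intro s k
      have e1 : V' a (I s k) = V (a * (c + m) + s) k := by
        rw [← ContinuousLinearMap.comp_apply, hVI a s]
      have e2 : τ (I s k) = I s (t k) := by
        rw [← ContinuousLinearMap.comp_apply, hτI s]; rfl
      have e3 : V' a (I s (t k)) = V (a * (c + m) + s) (t k) := by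
        rw [← ContinuousLinearMap.comp_apply, hVI a s]
      rw [e1, e2, e3, ← ContinuousLinearMap.comp_apply, hT]
      rfl
    conv_lhs => rw [← hI3 u]
    conv_rhs => rw [← hI3 u]
    simp only [map_sum]
    exact Finset.sum_congr rfl fun s _ => h1 s _
  have hV0 : ∀ s : Fin (c + m), V' 0 ∘L I s = V s := by
    intro s
    rw [hVI 0 s, Nat.zero_mul, Nat.zero_add]
  obtain ⟨hx1, hx2⟩ := BL_first V hV V' hV' c m I hV0 x hx
  obtain ⟨hy1, hy2⟩ := BL_first V hV V' hV' c m I hV0 y hy
  set x' : K' := ContinuousLinearMap.adjoint (V' 0) x with hx'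
  set y' : K' := ContinuousLinearMap.adjoint (V' 0) y with hy'
  have horth' : ∀ i : ℕ, ⟪y', (τ ^ i) x'⟫_ℂ = 0 := by
    intro i
    have h1 : V' 0 ((τ ^ i) x') = (T ^ i) x := by
      have := (f2 K' H V' hV' τ T hTV').2.2.2.1 i 0
      rw [← ContinuousLinearMap.comp_apply, ← this, ContinuousLinearMap.comp_apply, hx1]
    rw [hy', ContinuousLinearMap.adjoint_inner_left, h1]
    exact horth i
  set κ : ℝ := ε / (2 * (‖y'‖ + 1)) with hκ
  have hy0 : 0 < ‖y'‖ + 1 := by positivity
  have hκ0 : 0 < κ := by positivity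
  obtain ⟨Z, hZ, ⟨N, hN⟩, hZx, z, hz⟩ := ch K K' c m n I t τ x' y' ζ κ hI1 hI2 hI3 hτI htn
    (le_max_left _ _) (le_max_right _ _) hx2 hy2 horth' hζ1 hζ0 hκ0
  obtain ⟨T', hT', -⟩ := f1 K' H V' hV' (τ + (κ : ℂ) • Z)
  have hF2 := f2 K' H V' hV' (τ + (κ : ℂ) • Z) T' hT'
  refine ⟨T', ⟨K', i1, i2, i3, V', τ + (κ : ℂ) • Z, N, hV', hN, hT'⟩, ?_, ?_⟩
  · have h1 : ∀ i, (T' - T) ∘L V' i = V' i ∘L ((κ : ℂ) • Z) := by
      intro i
      rw [ContinuousLinearMap.sub_comp, hT', hTV', ContinuousLinearMap.comp_add]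
      abel
    have h2 := (f2 K' H V' hV' ((κ : ℂ) • Z) (T' - T) h1).2.1
    have h3 : ‖(κ : ℂ) • Z‖ ≤ κ * (‖y'‖ + 1) := by
      rw [norm_smul, Complex.norm_real, Real.norm_of_nonneg hκ0.le]
      exact mul_le_mul_of_nonneg_left hZ hκ0.le
    have h4 : κ * (‖y'‖ + 1) = ε / 2 := by
      rw [hκ]; field_simp
    linarith
  · intro ρ hρ
    refine ⟨m, V' 0 z, ?_, ?_⟩
    · have h1 := (f2 K' H V' hV' _ _ hF2.2.2.1).2.2.2.1 m 0
      have h2 : (ContinuousLinearMap.adjoint T' ^ m) (V' 0 z) = y := by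
        rw [← ContinuousLinearMap.comp_apply, h1, ContinuousLinearMap.comp_apply, hz, hy1]
      rw [h2, sub_self, norm_zero]
      exact hρ
    · have h1 := hF2.2.2.2.1 m 0
      have h2 : (T' ^ m) x = 0 := by
        rw [← hx1, ← ContinuousLinearMap.comp_apply, h1, ContinuousLinearMap.comp_apply, hZx,
          map_zero]
      rw [h2, norm_zero, zero_mul]
      exact hρ

end Pool.Agent.H952R2.TQ.P
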