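import Pool.Agent.H952R2.TQ.Stubs

set_option autoImplicit false
open Filter Topology
open scoped InnerProductSpace

namespace Pool.Agent.H952R2.TQ.P

theorem EX_li {K : Type} [NormedAddCommGroup K] [InnerProductSpace ℂ K]
    (t : K →L[ℂ] K) (n : ℕ) (h1 : t ^ (n + 1) = 0) (ξ : K) (hξ : (t ^ n) ξ ≠ 0) :
    LinearIndependent ℂ (fun i : Fin (n + 1) => (t ^ (i : ℕ)) ξ) := by
  rw [Fintype.linearIndependent_iff]
  intro c hc
  have key : ∀ m : ℕ, ∀ hm : m < n + 1, c ⟨m, hm⟩ = 0 := by
    intro m
    induction m using Nat.strong_induction_on with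
    | _ m ih =>
      intro hm
      have h2 := congrArg (fun z => (t ^ (n - m)) z) hc
      simp only [map_sum, map_smul, map_zero] at h2
      have h3 : ∀ j : Fin (n + 1), c j • (t ^ (n - m)) ((t ^ (j : ℕ)) ξ) =
          if j = ⟨m, hm⟩ then c ⟨m, hm⟩ • (t ^ n) ξ else 0 := by
        intro j
        have h4 : (t ^ (n - m)) ((t ^ (j : ℕ)) ξ) = (t ^ (n - m + j)) ξ := by
          rw [pow_add]; rfl
        rw [h4]
        split_ifs with hj
        · rw [hj]
          have : n - m + m = n := Nat.sub_add_cancel (by omega)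
          simp only [this]
        · rcases lt_or_gt_of_ne (fun h => hj (Fin.ext h) : (j : ℕ) ≠ m) with h | h
          · have h5 : c j = 0 := ih j h j.2
            rw [h5, zero_smul]
          · have h5 : t ^ (n - m + (j : ℕ)) = 0 := pow_eq_zero_of_le (by omega) h1
            rw [h5]
            simp
      rw [Finset.sum_congr rfl fun j _ => h3 j, Finset.sum_ite_eq'] at h2
      simp only [Finset.mem_univ, if_true] at h2
      exact (smul_eq_zero.1 h2).resolve_right hξ
  intro i
  exact key i i.2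

theorem EX : S_EX := by
  intro K _ _ _ t n h1 h2 δ hδ
  obtain ⟨k, hk⟩ : ∃ k, (t ^ n) k ≠ 0 := by
    by_contra hcon
    push Not at hcon
    exact h2 (ContinuousLinearMap.ext hcon)
  set r : ℝ := δ / (‖k‖ + 1) with hr
  have hr0 : 0 < r := by positivity
  set ξ : K := (r : ℂ) • k with hξdef
  have hξ : (t ^ n) ξ ≠ 0 := by
    rw [hξdef, map_smul]
    exact smul_ne_zero (by exact_mod_cast hr0.ne') hk
  have hξn : ‖ξ‖ ≤ δ := by
    rw [hξdef, norm_smul, Complex.norm_real, Real.norm_of_nonneg hr0.le, hr, div_mul_eq_mul_div,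
      div_le_iff₀ (by positivity)]
    nlinarith [norm_nonneg k]
  set w : Fin (n + 1) → K := fun i => (t ^ (i : ℕ)) ξ with hw
  have hli : LinearIndependent ℂ w := EX_li t n h1 ξ hξ
  set S : Submodule ℂ K := Submodule.span ℂ (Set.range w) with hS
  let b : Module.Basis (Fin (n + 1)) ℂ S := Module.Basis.span hli
  have : FiniteDimensional ℂ S := Module.Basis.finiteDimensional_of_finite b
  have : CompleteSpace S := FiniteDimensional.complete ℂ S
  let d : Fin (n + 1) → K := fun j =>
    (((InnerProductSpace.toDual ℂ S).symm (LinearMap.toContinuousLinearMap (b.coord j)) : S) : K)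
  have hd : ∀ i j, ⟪d j, w i⟫_ℂ = if i = j then 1 else 0 := by
    intro i j
    have hb : ((b i : S) : K) = w i := congrArg Subtype.val (Module.Basis.span_apply hli i)
    have e1 : ⟪d j, w i⟫_ℂ = ⟪(InnerProductSpace.toDual ℂ S).symm
        (LinearMap.toContinuousLinearMap (b.coord j)), b i⟫_ℂ := by
      rw [Submodule.coe_inner, hb]
    rw [e1, InnerProductSpace.toDual_symm_apply]
    simp [Finsupp.single_apply]
  refine ⟨ξ, ∑ j, ‖d j‖, hξn, Finset.sum_nonneg fun _ _ => norm_nonneg _, ?_⟩
  intro e ε he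
  refine ⟨∑ j, (starRingEnd ℂ) (e j) • d j, ?_, ?_⟩
  · intro i
    show ⟪∑ j, (starRingEnd ℂ) (e j) • d j, w i⟫_ℂ = e i
    rw [sum_inner]
    simp only [inner_smul_left, Complex.conj_conj, hd]
    simp
  · refine (norm_sum_le _ _).trans ?_
    rw [Finset.sum_mul]
    refine Finset.sum_le_sum fun j _ => ?_
    rw [norm_smul, RCLike.norm_conj, mul_comm]
    exact mul_le_mul_of_nonneg_left (he j) (norm_nonneg _)

end Pool.Agent.H952R2.TQ.P
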