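import Pool.Agent.H952R2.TQ.Stubs

/-!
# Task F1: amplification of an operator along a frame (helper228)
-/

set_option autoImplicit false
open Filter Topology
open scoped InnerProductSpace

namespace Pool.Agent.H952R2.TQ.P

section

variable {K H : Type} [NormedAddCommGroup K] [InnerProductSpace ℂ K] [CompleteSpace K]
    [NormedAddCommGroup H] [InnerProductSpace ℂ H] [CompleteSpace H]

theorem F1_norm {V : ℕ → (K →L[ℂ] H)} (hV : Frame V) (i : ℕ) (k : K) : ‖V i k‖ = ‖k‖ :=
  ((V i).norm_map_iff_adjoint_comp_self).2 (hV.iso i) k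

/-- the members of a frame as isometries -/
noncomputable def F1_iso {V : ℕ → (K →L[ℂ] H)} (hV : Frame V) (i : ℕ) : K →ₗᵢ[ℂ] H :=
  ⟨(V i).toLinearMap, F1_norm hV i⟩

theorem F1_adj_same {V : ℕ → (K →L[ℂ] H)} (hV : Frame V) (i : ℕ) (k : K) :
    ContinuousLinearMap.adjoint (V i) (V i k) = k := by
  have h := congrArg (fun S : K →L[ℂ] K => S k) (hV.iso i)
  simpa using h

theorem F1_adj_ne {V : ℕ → (K →L[ℂ] H)} (hV : Frame V) {i j : ℕ} (hij : i ≠ j) (k : K) :
    ContinuousLinearMap.adjoint (V i) (V j k) = 0 := by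
  have h := congrArg (fun S : K →L[ℂ] K => S k) (hV.orth i j hij)
  simpa using h

theorem F1_orth {V : ℕ → (K →L[ℂ] H)} (hV : Frame V) :
    OrthogonalFamily ℂ (fun _ : ℕ => K) (F1_iso hV) := by
  intro i j hij v w
  show ⟪V i v, V j w⟫_ℂ = 0
  rw [← ContinuousLinearMap.adjoint_inner_right, F1_adj_ne hV hij, inner_zero_right]

theorem F1_s1 {V : ℕ → (K →L[ℂ] H)} (hV : Frame V) (x : H) :
    Summable (fun i => ‖ContinuousLinearMap.adjoint (V i) x‖ ^ 2) :=
  ((F1_orth hV).summable_iff_norm_sq_summable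
    (fun i => ContinuousLinearMap.adjoint (V i) x)).1 (hV.sum x).summable

theorem F1_s3 {V : ℕ → (K →L[ℂ] H)} (hV : Frame V) (A : K →L[ℂ] K) (x : H) :
    Summable (fun i => V i (A (ContinuousLinearMap.adjoint (V i) x))) := by
  refine ((F1_orth hV).summable_iff_norm_sq_summable
    (fun i => A (ContinuousLinearMap.adjoint (V i) x))).2 ?_
  refine Summable.of_nonneg_of_le (fun i => by positivity) (fun i => ?_)
    ((F1_s1 hV x).mul_left (‖A‖ ^ 2))
  rw [← mul_pow]
  exact pow_le_pow_left₀ (norm_nonneg _) (A.le_opNorm _) 2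

theorem F1_bound {V : ℕ → (K →L[ℂ] H)} (hV : Frame V) (A : K →L[ℂ] K) (x : H) :
    ‖∑' i, V i (A (ContinuousLinearMap.adjoint (V i) x))‖ ≤ ‖A‖ * ‖x‖ := by
  have h1 := (F1_s3 hV A x).hasSum.norm
  have h2 := ((hV.sum x).norm).const_mul ‖A‖
  refine le_of_tendsto_of_tendsto' h1 h2 (fun s => ?_)
  have e1 := (F1_orth hV).norm_sum (fun i => A (ContinuousLinearMap.adjoint (V i) x)) s
  have e2 := (F1_orth hV).norm_sum (fun i => ContinuousLinearMap.adjoint (V i) x) s
  have e1' : ‖∑ i ∈ s, V i (A (ContinuousLinearMap.adjoint (V i) x))‖ ^ 2 =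
      ∑ i ∈ s, ‖A (ContinuousLinearMap.adjoint (V i) x)‖ ^ 2 := e1
  have e2' : ‖∑ i ∈ s, V i (ContinuousLinearMap.adjoint (V i) x)‖ ^ 2 =
      ∑ i ∈ s, ‖ContinuousLinearMap.adjoint (V i) x‖ ^ 2 := e2
  refine (pow_le_pow_iff_left₀ (norm_nonneg _) (by positivity) two_ne_zero).1 ?_
  rw [mul_pow, e1', e2', Finset.mul_sum]
  refine Finset.sum_le_sum (fun i _ => ?_)
  rw [← mul_pow]
  exact pow_le_pow_left₀ (norm_nonneg _) (A.le_opNorm _) 2

end

theorem F1 : S_F1 := by
  intro K H _ _ _ _ _ _ V hV A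
  refine ⟨LinearMap.mkContinuous
    { toFun := fun x => ∑' i, V i (A (ContinuousLinearMap.adjoint (V i) x))
      map_add' := fun x y => by
        rw [← (F1_s3 hV A x).tsum_add (F1_s3 hV A y)]
        exact tsum_congr fun i => by simp only [map_add]
      map_smul' := fun c x => by
        rw [RingHom.id_apply, ← (F1_s3 hV A x).tsum_const_smul]
        exact tsum_congr fun i => by simp only [map_smul] } ‖A‖
    (fun x => F1_bound hV A x), ?_, LinearMap.mkContinuous_norm_le _ (norm_nonneg _) _⟩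
  intro j
  ext k
  show ∑' i, V i (A (ContinuousLinearMap.adjoint (V i) (V j k))) = V j (A k)
  rw [tsum_eq_single j (fun i hi => by rw [F1_adj_ne hV hi, map_zero, map_zero]),
    F1_adj_same hV j]

end Pool.Agent.H952R2.TQ.P
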