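import Pool.Agent.H952R2.TQ.P.F1

/-!
# Task VC: correction of the vectors (helper228)
-/

set_option autoImplicit false
open Filter Topology
open scoped InnerProductSpace

namespace Pool.Agent.H952R2.TQ.P

section

variable {K H : Type} [NormedAddCommGroup K] [InnerProductSpace ℂ K] [CompleteSpace K]
    [NormedAddCommGroup H] [InnerProductSpace ℂ H] [CompleteSpace H]

theorem VC_inner {V : ℕ → (K →L[ℂ] H)} (hV : Frame V) (c m : ℕ) (a b : ℕ → K) :
    ⟪∑ k ∈ Finset.range m, V (c + k) (a k), ∑ k ∈ Finset.range m, V (c + k) (b k)⟫_ℂ =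
      ∑ k ∈ Finset.range m, ⟪a k, b k⟫_ℂ := by
  rw [sum_inner]
  refine Finset.sum_congr rfl fun k hk => ?_
  rw [inner_sum, Finset.sum_eq_single k]
  · rw [← ContinuousLinearMap.adjoint_inner_right, F1_adj_same hV]
  · intro j _ hj
    rw [← ContinuousLinearMap.adjoint_inner_right, F1_adj_ne hV (by omega), inner_zero_right]
  · intro h
    exact absurd hk h

theorem VC_norm {V : ℕ → (K →L[ℂ] H)} (hV : Frame V) (c m : ℕ) (a : ℕ → K) :
    ‖∑ k ∈ Finset.range m, V (c + k) (a k)‖ ^ 2 = ∑ k ∈ Finset.range m, ‖a k‖ ^ 2 := by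
  have h := VC_inner hV c m a a
  simp only [inner_self_eq_norm_sq_to_K] at h
  exact_mod_cast h

theorem VC_fst {V : ℕ → (K →L[ℂ] H)} (hV : Frame V) (c m : ℕ) (a : ℕ → K) (x : H)
    (hx : Fst V c x) : Fst V (c + m) (x + ∑ k ∈ Finset.range m, V (c + k) (a k)) := by
  intro i hi
  rw [map_add, hx i (by omega), zero_add, map_sum]
  refine Finset.sum_eq_zero fun k hk => ?_
  rw [Finset.mem_range] at hk
  exact F1_adj_ne hV (by omega) _

theorem VC_main {V : ℕ → (K →L[ℂ] H)} (hV : Frame V) (t : K →L[ℂ] K) (T : H →L[ℂ] H)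
    (hp : ∀ (m i : ℕ), (T ^ m) ∘L V i = V i ∘L (t ^ m))
    (hap : ∀ (m i : ℕ), ContinuousLinearMap.adjoint (V i) ∘L (T ^ m) =
      (t ^ m) ∘L ContinuousLinearMap.adjoint (V i)) (c m : ℕ) (a b : ℕ → K) (x y : H)
    (hx : Fst V c x) (hy : Fst V c y) (i : ℕ) :
    ⟪y + ∑ k ∈ Finset.range m, V (c + k) (b k),
      (T ^ i) (x + ∑ k ∈ Finset.range m, V (c + k) (a k))⟫_ℂ =
      ⟪y, (T ^ i) x⟫_ℂ + ∑ k ∈ Finset.range m, ⟪b k, (t ^ i) (a k)⟫_ℂ := by
  have h1 : (T ^ i) (∑ k ∈ Finset.range m, V (c + k) (a k)) =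
      ∑ k ∈ Finset.range m, V (c + k) ((t ^ i) (a k)) := by
    rw [map_sum]
    refine Finset.sum_congr rfl fun k _ => ?_
    have := congrArg (fun S : K →L[ℂ] H => S (a k)) (hp i (c + k))
    simpa using this
  have h2 : ⟪y, ∑ k ∈ Finset.range m, V (c + k) ((t ^ i) (a k))⟫_ℂ = 0 := by
    rw [inner_sum]
    refine Finset.sum_eq_zero fun k _ => ?_
    rw [← ContinuousLinearMap.adjoint_inner_left, hy (c + k) (by omega), inner_zero_left]
  have h3 : ⟪∑ k ∈ Finset.range m, V (c + k) (b k), (T ^ i) x⟫_ℂ = 0 := by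
    rw [sum_inner]
    refine Finset.sum_eq_zero fun k _ => ?_
    have h4 : ContinuousLinearMap.adjoint (V (c + k)) ((T ^ i) x) = 0 := by
      have := congrArg (fun S : H →L[ℂ] K => S x) (hap i (c + k))
      simp only [ContinuousLinearMap.comp_apply] at this
      rw [this, hx (c + k) (by omega), map_zero]
    rw [← ContinuousLinearMap.adjoint_inner_right, h4, inner_zero_right]
  rw [map_add, h1, inner_add_left, inner_add_right, inner_add_right, h2, h3,
    VC_inner hV c m b (fun k => (t ^ i) (a k))]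
  ring

end

theorem VC (f2 : S_F2) (fr : S_FR) (ex : S_EX) : S_VC := by
  intro K H _ _ _ _ _ _ V t T n c x y ρ hV htn htn' hT hx hy hρ hR
  obtain ⟨-, -, -, hp, hap⟩ := f2 K H V hV t T hT
  obtain ⟨M, z, hz1, hz2⟩ := hR
  set l : ℝ := ρ * (1 + ‖x‖) with hl
  have hl0 : 0 < l := by positivity
  have hs0 : 0 < Real.sqrt l := Real.sqrt_pos.2 hl0
  have hsq : Real.sqrt l ^ 2 = l := Real.sq_sqrt hl0.le
  -- the bound
  have hbound : ∀ a : Fin (n + 1) → ℂ, ‖∑ i, a i * (-⟪y, (T ^ (i : ℕ)) x⟫_ℂ)‖ ≤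
      l * ‖∑ i, a i • t ^ (i : ℕ)‖ := by
    intro a
    set Q : H →L[ℂ] H := ∑ i : Fin (n + 1), a i • T ^ (i : ℕ) with hQ
    set q : K →L[ℂ] K := ∑ i : Fin (n + 1), a i • t ^ (i : ℕ) with hq
    have hQq : ∀ k, Q ∘L V k = V k ∘L q := by
      intro k
      ext w
      simp only [hQ, hq, ContinuousLinearMap.comp_apply, ContinuousLinearMap.sum_apply,
        ContinuousLinearMap.smul_apply, map_sum, map_smul]
      refine Finset.sum_congr rfl fun i _ => ?_
      have := congrArg (fun S : K →L[ℂ] H => S w) (hp i k)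
      simp only [ContinuousLinearMap.comp_apply] at this
      rw [this]
    have hQn : ‖Q‖ ≤ ‖q‖ := (f2 K H V hV q Q hQq).2.1
    have hcomm : (T ^ M) (Q x) = Q ((T ^ M) x) := by
      have h1 : Commute (T ^ M) Q := by
        rw [hQ]
        exact Commute.sum_right _ _ _ fun i _ =>
          Commute.smul_right (Commute.pow_pow_self T M i) _
      exact congrArg (fun S : H →L[ℂ] H => S x) h1.eq
    have h1 : ∑ i, a i * (-⟪y, (T ^ (i : ℕ)) x⟫_ℂ) = -⟪y, Q x⟫_ℂ := by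
      rw [hQ, ContinuousLinearMap.sum_apply, inner_sum, ← Finset.sum_neg_distrib]
      refine Finset.sum_congr rfl fun i _ => ?_
      rw [ContinuousLinearMap.smul_apply, inner_smul_right]
      ring
    have hadj : ContinuousLinearMap.adjoint T ^ M = ContinuousLinearMap.adjoint (T ^ M) := by
      rw [← ContinuousLinearMap.star_eq_adjoint, ← ContinuousLinearMap.star_eq_adjoint, star_pow]
    have h2 : ⟪y, Q x⟫_ℂ = ⟪y - (ContinuousLinearMap.adjoint T ^ M) z, Q x⟫_ℂ +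
        ⟪z, Q ((T ^ M) x)⟫_ℂ := by
      rw [inner_sub_left, hadj, ContinuousLinearMap.adjoint_inner_left, hcomm]
      ring
    rw [h1, norm_neg, h2]
    have h3 : ‖⟪y - (ContinuousLinearMap.adjoint T ^ M) z, Q x⟫_ℂ‖ ≤ ρ * (‖q‖ * ‖x‖) := by
      refine (norm_inner_le_norm _ _).trans ?_
      refine mul_le_mul hz1.le ((Q.le_opNorm x).trans ?_) (norm_nonneg _) hρ.le
      exact mul_le_mul_of_nonneg_right hQn (norm_nonneg _)
    have h4 : ‖⟪z, Q ((T ^ M) x)⟫_ℂ‖ ≤ ρ * ‖q‖ := by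
      refine (norm_inner_le_norm _ _).trans ?_
      calc ‖z‖ * ‖Q ((T ^ M) x)‖ ≤ ‖z‖ * (‖q‖ * ‖(T ^ M) x‖) := by
            refine mul_le_mul_of_nonneg_left ((Q.le_opNorm _).trans ?_) (norm_nonneg _)
            exact mul_le_mul_of_nonneg_right hQn (norm_nonneg _)
        _ = (‖(T ^ M) x‖ * ‖z‖) * ‖q‖ := by ring
        _ ≤ ρ * ‖q‖ := mul_le_mul_of_nonneg_right hz2.le (norm_nonneg _)
    calc ‖⟪y - (ContinuousLinearMap.adjoint T ^ M) z, Q x⟫_ℂ + ⟪z, Q ((T ^ M) x)⟫_ℂ‖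
        ≤ ρ * (‖q‖ * ‖x‖) + ρ * ‖q‖ := (norm_add_le _ _).trans (add_le_add h3 h4)
      _ = l * ‖q‖ := by rw [hl]; ring
  obtain ⟨ξ, C, hξ, hC, hex⟩ := ex K t n htn htn' (Real.sqrt l) hs0
  set ε : ℝ := Real.sqrt l / (C + 1) with hε
  have hε0 : 0 < ε := by positivity
  have hCε : C * ε ≤ Real.sqrt l := by
    rw [hε, mul_div_assoc', div_le_iff₀ (by positivity)]
    nlinarith
  obtain ⟨J, u, v, huv, hu, hv⟩ := fr K t (n + 1) (fun i => -⟪y, (T ^ (i : ℕ)) x⟫_ℂ) l hl0.le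
    hbound ε hε0
  obtain ⟨η, hη1, hη2⟩ := hex
    (fun i => -(⟪y, (T ^ (i : ℕ)) x⟫_ℂ + ∑ j, ⟪v j, (t ^ (i : ℕ)) (u j)⟫_ℂ)) ε (fun i => by
      rw [norm_neg]
      have h := huv i
      rw [sub_neg_eq_add, add_comm] at h
      exact h)
  set U : ℕ → K := fun k => if h : k < J then u ⟨k, h⟩ else ξ with hU
  set W : ℕ → K := fun k => if h : k < J then v ⟨k, h⟩ else η with hW
  have hUJ : ∀ j : Fin J, U j = u j := fun j => by simp [hU]
  have hWJ : ∀ j : Fin J, W j = v j := fun j => by simp [hW]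
  have hUξ : U J = ξ := by simp [hU]
  have hWη : W J = η := by simp [hW]
  have hnorm : ∀ a : ℕ → K, ∑ k ∈ Finset.range (J + 1), ‖a k‖ ^ 2 ≤ 2 * l →
      ‖∑ k ∈ Finset.range (J + 1), V (c + k) (a k)‖ ≤ 2 * Real.sqrt l := by
    intro a ha
    refine (pow_le_pow_iff_left₀ (norm_nonneg _) (by positivity) two_ne_zero).1 ?_
    rw [VC_norm hV, mul_pow, hsq]
    linarith
  refine ⟨c + (J + 1), x + ∑ k ∈ Finset.range (J + 1), V (c + k) (U k),
    y + ∑ k ∈ Finset.range (J + 1), V (c + k) (W k), VC_fst hV c (J + 1) U x hx,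
    VC_fst hV c (J + 1) W y hy, ?_, ?_, ?_⟩
  · intro i
    by_cases hi : i ≤ n
    · rw [VC_main hV t T hp hap c (J + 1) U W x y hx hy i, Finset.sum_range_succ,
        Finset.sum_range, hUξ, hWη]
      have h1 := hη1 ⟨i, by omega⟩
      simp only at h1
      rw [h1]
      have h2 : ∑ j : Fin J, ⟪W j, (t ^ i) (U j)⟫_ℂ = ∑ j, ⟪v j, (t ^ i) (u j)⟫_ℂ :=
        Finset.sum_congr rfl fun j _ => by rw [hUJ, hWJ]
      rw [h2]
      ring
    · have ht : t ^ i = 0 := by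
        obtain ⟨d, rfl⟩ : ∃ d, i = n + 1 + d := ⟨i - (n + 1), by omega⟩
        rw [pow_add, htn, zero_mul]
      have hT0 : T ^ i = 0 := by
        have h1 := (f2 K H V hV (t ^ i) (T ^ i) (fun k => hp i k)).2.1
        rw [ht, norm_zero] at h1
        exact norm_le_zero_iff.1 h1
      rw [hT0, ContinuousLinearMap.zero_apply, inner_zero_right]
  · rw [add_sub_cancel_left]
    apply hnorm
    rw [Finset.sum_range_succ, Finset.sum_range, hUξ, Finset.sum_congr rfl fun j _ => by rw [hUJ j]]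
    have h1 : ‖ξ‖ ^ 2 ≤ l := by
      rw [← hsq]; exact pow_le_pow_left₀ (norm_nonneg _) hξ 2
    linarith
  · rw [add_sub_cancel_left]
    apply hnorm
    rw [Finset.sum_range_succ, Finset.sum_range, hWη, Finset.sum_congr rfl fun j _ => by rw [hWJ j]]
    have h1 : ‖η‖ ^ 2 ≤ l := by
      rw [← hsq]; exact pow_le_pow_left₀ (norm_nonneg _) (hη2.trans hCε) 2
    linarith

end Pool.Agent.H952R2.TQ.P
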